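import Pool.Agent.Helper53.AE.Final

/-!
# Extensions of AF-embeddable C*-algebras (MP_8130e1_an)

Let `0 → J → A → B → 0` be an exact sequence of C*-algebras, `A` separable, `J ⊗ O₂` and `B`
AF-embeddable, and let `A⁺ → B⁺` be locally liftable (this is automatic if `A` is exact) or `B`
nuclear. Then `A` is AF-embeddable.
-/

set_option autoImplicit false

open scoped ComplexOrder Topology
open Filter TopologicalSpace

namespace Pool.Agent.Results.MP_8130e1_an.ExtensionEmbedding

open Pool.Agent.Helper53.AE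

theorem result (J A B : Type) [NonUnitalCStarAlgebra J] [NonUnitalCStarAlgebra A]
    [NonUnitalCStarAlgebra B] [SeparableSpace A] (u : J →⋆ₙₐ[ℂ] A) (π : A →⋆ₙₐ[ℂ] B)
    (hu : Function.Injective u) (hπ : Function.Surjective π)
    (hker : ∀ a, π a = 0 ↔ a ∈ Set.range u)
    (hL : LocalLift (Unitization.starMap π : Unitization ℂ A →⋆ₐ[ℂ] Unitization ℂ B) ∨ Nuclear B)
    (hJ : CuntzAFEmb J) (hB : AFEmb B) : AFEmb A := by
  refine main J A B u π hu hker ?_ hJ.o2Emb hB
  rcases hL with hL | hL
  · exact hL.locLift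
  · exact p_NUC A B π hπ hL.nuc

end Pool.Agent.Results.MP_8130e1_an.ExtensionEmbedding
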