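import Pool.Agent.Helper34.AFE.Group

/-!
# MP_8130e1_an: weakly graded C*-algebras and AF-embeddings

Let `B` be a separable C*-algebra with a weak grading, with type I unit fibre, over a group all
of whose finitely generated subgroups are virtually polycyclic.  Suppose that every nonzero
element of `B` is seen by a tracial functional or by a *-homomorphism into a simple unital
quasidiagonal C*-algebra.  Then `B` has a faithful tracial functional and lies in every class of
C*-algebras with the permanence properties of the class of nuclear algebras satisfying the UCT;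
so `B` embeds into an AF algebra if the theorem of Tikuisis, White and Winter, Schafhauser and
Gabe holds in the class.
-/

set_option autoImplicit false

open scoped ComplexOrder

namespace Pool.Agent.Results.MP_8130e1_an.GradedEmbedding

open Pool.Agent.Helper39.Uct Pool.Agent.Helper34.AFE

theorem result (𝒞 : Cls) (h𝒞 : UctPerm 𝒞)
    (B : Type) [NonUnitalCStarAlgebra B] [TopologicalSpace.SeparableSpace B]
    (Q : Type) [Group Q] (hQ : ∀ H : Subgroup Q, H.FG → VPC H)
    (G : Fib Q B) (A : Type) [NonUnitalCStarAlgebra A]
    (hA : IsTypeI A) (ι : A →⋆ₙₐ[ℂ] B) (hι : Set.range ι = (G.fib 1 : Set B))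
    (h : ∀ b : B, b ≠ 0 → Seen b) : FaithfulTr B ∧ 𝒞 B ∧ (EmbIn 𝒞 → AFEmb B) :=
  emb_graded 𝒞 h𝒞 B Q hQ G A hA ι hι h

end Pool.Agent.Results.MP_8130e1_an.GradedEmbedding
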