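import Pool.Agent.Helper34.AFE.Group

/-!
# MP_8130e1_an: quotients of Cuntz-Pimsner algebras over type I algebras and AF-embeddings

Let `B` be a separable C*-algebra generated by closed subspaces `E n`, `n : ℕ`, with
`E m * E n ⊆ E (m + n)` and `(E m)* * E (m + n) ⊆ E n`, where `E 0` is the image of a type I
C*-algebra (for example a quotient, by any ideal, of a relative Cuntz-Pimsner algebra over a type I
algebra).  Suppose that every nonzero element of `B` is seen by a tracial functional or by a
*-homomorphism into a simple unital quasidiagonal C*-algebra.  Then `B` has a faithful tracial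
functional and lies in the bootstrap class, so it embeds into an AF algebra if the theorem of
Tikuisis, White and Winter, Schafhauser and Gabe holds in the class.
-/

set_option autoImplicit false

open scoped ComplexOrder

namespace Pool.Agent.Results.MP_8130e1_an.PimsnerEmbedding

open Pool.Agent.Helper39.Uct Pool.Agent.Helper34.CP Pool.Agent.Helper34.AFE

theorem result (𝒞 : Cls) (h𝒞 : RSClass 𝒞)
    (B : Type) [NonUnitalCStarAlgebra B] [TopologicalSpace.SeparableSpace B]
    (E : ℕ → Submodule ℂ B) (hE : Sys E) (A : Type) [NonUnitalCStarAlgebra A]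
    (hA : IsTypeI A) (ι : A →⋆ₙₐ[ℂ] B) (hι : Set.range ι = (E 0 : Set B))
    (h : ∀ b : B, b ≠ 0 → Seen b) : FaithfulTr B ∧ 𝒞 B ∧ (EmbIn 𝒞 → AFEmb B) :=
  emb_cp 𝒞 h𝒞 B E hE A hA ι hι h

end Pool.Agent.Results.MP_8130e1_an.PimsnerEmbedding
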