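import Pool.Agent.Helper34.AFE.Group

/-!
# MP_8130e1_an: C*-algebras generated by unitary representations and AF-embeddings

Let `G` be a group with an abelian normal subgroup `N` such that all finitely generated subgroups
of `G ⧸ N` are virtually polycyclic, and `B` a separable unital C*-algebra generated by a unitary
representation of `G` such that the intersection of the maximal ideals of `B` is zero.  Then `B`
has a faithful tracial functional and lies in every class of C*-algebras with the permanence
properties of the class of nuclear algebras satisfying the UCT; so `B` embeds into an AF algebra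
if the theorem of Tikuisis, White and Winter, Schafhauser and Gabe holds in the class.
-/

set_option autoImplicit false

open scoped ComplexOrder

namespace Pool.Agent.Results.MP_8130e1_an.UnitaryRepEmbedding

open Pool.Agent.Helper39.Uct Pool.Agent.Helper34.AFE

theorem result (𝒞 : Cls) (h𝒞 : UctPerm 𝒞)
    (B : Type) [CStarAlgebra B] [TopologicalSpace.SeparableSpace B]
    (G : Type) [Group G] (N : Subgroup G) [N.Normal]
    (hN : ∀ a ∈ N, ∀ b ∈ N, a * b = b * a)
    (hQ : ∀ H : Subgroup (G ⧸ N), H.FG → VPC H)
    (u : G →* unitary B)
    (hu : (Submodule.span ℂ (Set.range fun g ↦ (u g : B))).topologicalClosure = ⊤)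
    (h : ∀ b : B, b ≠ 0 → SeenSimple b) : FaithfulTr B ∧ 𝒞 B ∧ (EmbIn 𝒞 → AFEmb B) :=
  emb_group 𝒞 h𝒞 B G N hN hQ u hu h

end Pool.Agent.Results.MP_8130e1_an.UnitaryRepEmbedding
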